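import Mathlib

/-!
# Consecutive multi-way isoperimetric constants: an absolute constant

If `Γ` is a finite vertex-transitive graph and `h_{n+1} > 20 h_n`, then the automorphism group has a
system of imprimitivity of size `n`. So `h_{n+1} ≤ 20 h_n` whenever there is no such system.

Proof. Consider the translates of the classes of a realizer of `h_n`. Two of them are either almost
equal (matched) or far from each other, and matching is an equivalence relation on the translates.
For every vertex `x`, at least `3/4` of the translated partitions have the class of `x` in one and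
the same equivalence class `K(x)`. The fibres of `K` are blocks. Every class of the realizer contains
a vertex `x` for which it belongs to `K(x)`, hence there are at least `n` blocks; and there are at
most `n` blocks since each vertex has at most `2 h_n` neighbors outside its block.
-/

set_option autoImplicit false
set_option linter.unusedSectionVars false

namespace Pool.Agent.Results.MP_f363fd_co.AbsoluteConstant

open scoped BigOperators

/-- The boundary of `A`: the edges with one endpoint in `A` and the other outside of `A`. -/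
def boundary {V : Type} (Γ : SimpleGraph V) (A : Set V) : Set (Sym2 V) :=
  {e | e ∈ Γ.edgeSet ∧ ∃ v ∈ A, ∃ w ∉ A, e = s(v, w)}

/-- The largest value of `|∂ A_i| / |A_i|` over the classes `A_i = f ⁻¹ {i}`. -/
noncomputable def cost {V : Type} (Γ : SimpleGraph V) {n : ℕ} (f : V → Fin n) : ℝ :=
  ⨆ i, ((boundary Γ (f ⁻¹' {i})).ncard : ℝ) / ((f ⁻¹' {i}).ncard : ℝ)

/-- The `n`-way isoperimetric constant: the minimum cost of a partition into `n` non-empty
classes (partitions are given by surjections onto `Fin n`). -/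
noncomputable def isoper {V : Type} (Γ : SimpleGraph V) (n : ℕ) : ℝ :=
  ⨅ f : {f : V → Fin n // Function.Surjective f}, cost Γ f.1

section core

variable {V : Type} [Fintype V] (Γ : SimpleGraph V)

open Classical in
noncomputable def adj (v w : V) : ℝ := if Γ.Adj v w then 1 else 0

theorem adj_nonneg (v w : V) : 0 ≤ adj Γ v w := by
  unfold adj; split_ifs <;> norm_num

theorem adj_symm (v w : V) : adj Γ v w = adj Γ w v := by
  unfold adj
  by_cases h : Γ.Adj v w
  · rw [if_pos h, if_pos h.symm]
  · rw [if_neg h, if_neg fun h' => h h'.symm]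

noncomputable def E (φ : V → V → ℝ) : ℝ := ∑ v, ∑ w, adj Γ v w * φ v w

theorem E_mono {φ ψ : V → V → ℝ} (h : ∀ v w, φ v w ≤ ψ v w) : E Γ φ ≤ E Γ ψ :=
  Finset.sum_le_sum fun v _ => Finset.sum_le_sum fun w _ =>
    mul_le_mul_of_nonneg_left (h v w) (adj_nonneg Γ v w)

theorem E_congr {φ ψ : V → V → ℝ} (h : ∀ v w, φ v w = ψ v w) : E Γ φ = E Γ ψ := by
  have : φ = ψ := by ext v w; exact h v w
  rw [this]

theorem E_nonneg {φ : V → V → ℝ} (h : ∀ v w, 0 ≤ φ v w) : 0 ≤ E Γ φ :=
  Finset.sum_nonneg fun v _ => Finset.sum_nonneg fun w _ => mul_nonneg (adj_nonneg Γ v w) (h v w)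

theorem E_add (φ ψ : V → V → ℝ) : E Γ (fun v w => φ v w + ψ v w) = E Γ φ + E Γ ψ := by
  simp only [E, mul_add, Finset.sum_add_distrib]

theorem E_sub (φ ψ : V → V → ℝ) : E Γ (fun v w => φ v w - ψ v w) = E Γ φ - E Γ ψ := by
  simp only [E, mul_sub, Finset.sum_sub_distrib]

theorem E_sum {ι : Type} [Fintype ι] (φ : ι → V → V → ℝ) :
    E Γ (fun v w => ∑ i, φ i v w) = ∑ i, E Γ (φ i) := by
  simp only [E, Finset.mul_sum]
  calc ∑ v, ∑ w, ∑ i, adj Γ v w * φ i v w = ∑ v, ∑ i, ∑ w, adj Γ v w * φ i v w :=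
        Finset.sum_congr rfl fun v _ => Finset.sum_comm
    _ = _ := Finset.sum_comm

theorem E_symm (φ : V → V → ℝ) : E Γ (fun v w => φ w v) = E Γ φ := by
  unfold E
  rw [Finset.sum_comm]
  exact Finset.sum_congr rfl fun v _ => Finset.sum_congr rfl fun w _ => by rw [adj_symm]

noncomputable def bdr (χ : V → ℝ) : ℝ := E Γ fun v w => χ v * (1 - χ w)

noncomputable def sz (χ : V → ℝ) : ℝ := ∑ v, χ v

/-- the indicator of a class -/
noncomputable def ind {n : ℕ} (f : V → Fin n) (i : Fin n) (v : V) : ℝ := if f v = i then 1 else 0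

def IsInd (χ : V → ℝ) : Prop := ∀ v, χ v = 0 ∨ χ v = 1

theorem ind_isInd {n : ℕ} (f : V → Fin n) (i : Fin n) : IsInd (ind f i) := fun v => by
  unfold ind; split_ifs
  · exact Or.inr rfl
  · exact Or.inl rfl

theorem isInd_mul {a b : V → ℝ} (ha : IsInd a) (hb : IsInd b) : IsInd (fun v => a v * b v) :=
  fun v => by
    rcases ha v with h1 | h1 <;> rcases hb v with h2 | h2 <;> simp [h1, h2]

theorem isInd_nonneg {a : V → ℝ} (ha : IsInd a) (v : V) : 0 ≤ a v := by
  rcases ha v with h | h <;> rw [h]; norm_num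

theorem sz_mono {a b : V → ℝ} (h : ∀ v, a v ≤ b v) : sz a ≤ sz b :=
  Finset.sum_le_sum fun v _ => h v

theorem sz_nonneg {a : V → ℝ} (h : ∀ v, 0 ≤ a v) : 0 ≤ sz a := Finset.sum_nonneg fun v _ => h v

theorem bdr_nonneg {a : V → ℝ} (ha : IsInd a) : 0 ≤ bdr Γ a :=
  E_nonneg Γ fun v w => by rcases ha v with h1 | h1 <;> rcases ha w with h2 | h2 <;> simp [h1, h2]

theorem bdr_symm (a : V → ℝ) : bdr Γ a = E Γ fun v w => a w * (1 - a v) :=
  (E_symm Γ fun v w => a v * (1 - a w)).symm

theorem bdr_mul {a b : V → ℝ} (ha : IsInd a) (hb : IsInd b) :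
    bdr Γ (fun v => a v * b v) ≤ bdr Γ a + bdr Γ b := by
  unfold bdr
  rw [← E_add]
  refine E_mono Γ fun v w => ?_
  rcases ha v with h1 | h1 <;> rcases ha w with h2 | h2 <;> rcases hb v with h3 | h3 <;>
    rcases hb w with h4 | h4 <;> simp [h1, h2, h3, h4]

theorem bdr_diff {a b : V → ℝ} (ha : IsInd a) (hb : IsInd b) :
    bdr Γ (fun v => a v * (1 - b v)) ≤ bdr Γ a + bdr Γ b := by
  rw [bdr_symm Γ b]
  unfold bdr
  rw [← E_add]
  refine E_mono Γ fun v w => ?_
  rcases ha v with h1 | h1 <;> rcases ha w with h2 | h2 <;> rcases hb v with h3 | h3 <;>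
    rcases hb w with h4 | h4 <;> simp [h1, h2, h3, h4]

theorem two_bdr (a : V → ℝ) :
    2 * bdr Γ a = E Γ fun v w => a v * (1 - a w) + a w * (1 - a v) := by
  rw [E_add, ← bdr_symm]; unfold bdr; ring

theorem bdr_posi {a b : V → ℝ} (ha : IsInd a) (hb : IsInd b) :
    bdr Γ (fun v => a v * (1 - b v)) + bdr Γ (fun v => b v * (1 - a v)) ≤ bdr Γ a + bdr Γ b := by
  have : 2 * bdr Γ (fun v => a v * (1 - b v)) + 2 * bdr Γ (fun v => b v * (1 - a v))
      ≤ 2 * bdr Γ a + 2 * bdr Γ b := by
    rw [two_bdr, two_bdr, two_bdr, two_bdr, ← E_add, ← E_add]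
    refine E_mono Γ fun v w => ?_
    rcases ha v with h1 | h1 <;> rcases ha w with h2 | h2 <;> rcases hb v with h3 | h3 <;>
      rcases hb w with h4 | h4 <;> norm_num [h1, h2, h3, h4]
  linarith

/-- every class is non-empty with small boundary -/
def Good {n : ℕ} (h : ℝ) (f : V → Fin n) : Prop :=
  ∀ i, 0 < sz (ind f i) ∧ bdr Γ (ind f i) ≤ h * sz (ind f i)

/-- The standing assumptions. -/
structure Ctx (n : ℕ) (h H : ℝ) : Prop where
  h0 : 0 ≤ h
  hH : 20 * h < H
  F1 : ∀ f : V → Fin n, Good Γ h f → ∀ i, ∀ χ : V → ℝ, IsInd χ →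
    H * sz (fun v => ind f i v * χ v) ≤ bdr Γ (fun v => ind f i v * χ v) ∨
    H * sz (fun v => ind f i v * (1 - χ v)) ≤ bdr Γ (fun v => ind f i v * (1 - χ v))
  F2 : ∀ F' : V → Fin (n + 1), Function.Surjective F' →
    ∃ i, H * sz (ind F' i) ≤ bdr Γ (ind F' i)

variable {Γ}

theorem Ctx.six {n : ℕ} {h H : ℝ} (c : Ctx Γ n h H) : 6 * h < H := by
  have := c.hH
  have := c.h0
  linarith

theorem Ctx.Hpos {n : ℕ} {h H : ℝ} (c : Ctx Γ n h H) : 0 < H := by
  have := c.hH
  have := c.h0
  linarith

theorem sum_ind {n : ℕ} (f : V → Fin n) : ∑ i, sz (ind f i) = Fintype.card V := by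
  unfold sz ind
  rw [Finset.sum_comm]
  simp

theorem sum_bdr {n : ℕ} (f : V → Fin n) :
    ∑ i, bdr Γ (ind f i) = E Γ fun v w => if f v = f w then 0 else 1 := by
  unfold bdr
  rw [← E_sum]
  refine E_congr Γ fun v w => ?_
  unfold ind
  simp only [ite_mul, one_mul, zero_mul, Finset.sum_ite_eq, Finset.mem_univ, if_true]
  by_cases h : f v = f w
  · rw [if_pos h, if_pos h.symm]; ring
  · rw [if_neg h, if_neg (Ne.symm h)]; ring

theorem sz_split (a b : V → ℝ) :
    sz a = sz (fun v => a v * b v) + sz (fun v => a v * (1 - b v)) := by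
  unfold sz
  rw [← Finset.sum_add_distrib]
  exact Finset.sum_congr rfl fun v _ => by ring

/-- Matched classes differ in few vertices. -/
theorem matched_ineq {n : ℕ} {h H : ℝ} (c : Ctx Γ n h H) {f f' : V → Fin n} (hf : Good Γ h f)
    (hf' : Good Γ h f') {i j : Fin n}
    (h1 : sz (ind f i) < 2 * sz (fun v => ind f i v * ind f' j v))
    (h2 : sz (ind f' j) < 2 * sz (fun v => ind f i v * ind f' j v)) :
    H * sz (fun v => ind f i v * (1 - ind f' j v)) ≤ bdr Γ (fun v => ind f i v * (1 - ind f' j v)) ∧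
    H * sz (fun v => ind f i v * (1 - ind f' j v)) ≤ h * (sz (ind f i) + sz (ind f' j)) := by
  have h3 := bdr_mul Γ (ind_isInd f i) (ind_isInd f' j)
  have h4 := bdr_diff Γ (ind_isInd f i) (ind_isInd f' j)
  have h5 := (hf i).2
  have h6 := (hf' j).2
  have h7 := c.six
  have h8 := c.h0
  have h9 : H * sz (fun v => ind f i v * (1 - ind f' j v))
      ≤ bdr Γ (fun v => ind f i v * (1 - ind f' j v)) := by
    rcases c.F1 f hf i (ind f' j) (ind_isInd f' j) with h10 | h10
    · exfalso
      have h11 := (hf i).1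
      nlinarith
    · exact h10
  exact ⟨h9, by linarith⟩

theorem sum_sz_mul {n : ℕ} (a : V → ℝ) (f' : V → Fin n) :
    ∑ j, sz (fun v => a v * ind f' j v) = sz a := by
  unfold sz ind
  rw [Finset.sum_comm]
  simp

theorem sum_bdr_mul {n : ℕ} {a : V → ℝ} (ha : IsInd a) (f' : V → Fin n) :
    ∑ j, bdr Γ (fun v => a v * ind f' j v)
      ≤ bdr Γ a + E Γ (fun v w => a v * if f' v = f' w then 0 else 1) := by
  unfold bdr
  rw [← E_sum, ← E_add]
  refine E_mono Γ fun v w => ?_
  have : ∑ j, a v * ind f' j v * (1 - a w * ind f' j w)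
      = a v * (1 - a w * if f' v = f' w then 1 else 0) := by
    unfold ind
    simp only [mul_ite, mul_one, mul_zero, ite_mul, zero_mul, Finset.sum_ite_eq, Finset.mem_univ,
      if_true]
    by_cases h : f' v = f' w
    · rw [if_pos h, if_pos h.symm]
    · rw [if_neg h, if_neg (Ne.symm h)]
  rw [this]
  rcases ha v with h1 | h1 <;> rcases ha w with h2 | h2 <;> by_cases h : f' v = f' w <;>
    simp [h1, h2, h]

theorem bdr_diff_half {n : ℕ} {a : V → ℝ} (ha : IsInd a) (f' : V → Fin n) (j : Fin n) :
    2 * bdr Γ (fun v => a v * (1 - ind f' j v))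
      ≤ 2 * bdr Γ a + E Γ (fun v w => a v * if f' v = f' w then 0 else 1) := by
  rw [two_bdr, two_bdr, ← E_add]
  refine E_mono Γ fun v w => ?_
  unfold ind
  by_cases h : f' v = f' w
  · rw [h]
    rcases ha v with h1 | h1 <;> rcases ha w with h2 | h2 <;> by_cases h3 : f' w = j <;>
      norm_num [h1, h2, h3]
  · rw [if_neg h]
    rcases ha v with h1 | h1 <;> rcases ha w with h2 | h2 <;> by_cases h3 : f' v = j <;>
      by_cases h4 : f' w = j <;> norm_num [h1, h2, h3, h4]

/-- A class of `f` is matched with a class of `f'`, or the partition `f'` cuts many edges at it. -/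
theorem matched_or {n : ℕ} {h H : ℝ} (c : Ctx Γ n h H) {f f' : V → Fin n} (hf : Good Γ h f)
    (hf' : Good Γ h f') (i : Fin n) :
    (∃ j, sz (ind f i) < 2 * sz (fun v => ind f i v * ind f' j v) ∧
      sz (ind f' j) < 2 * sz (fun v => ind f i v * ind f' j v)) ∨
    (H - 2 * h) * sz (ind f i)
      ≤ E Γ (fun v w => ind f i v * if f' v = f' w then 0 else 1) := by
  by_contra hcon
  push Not at hcon
  obtain ⟨hm, hd⟩ := hcon
  have hA := hf i
  have h6 := c.six
  have h0 := c.h0
  have key : ∀ j, H * sz (fun v => ind f i v * ind f' j v)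
      ≤ bdr Γ (fun v => ind f i v * ind f' j v) := by
    intro j
    rcases c.F1 f hf i (ind f' j) (ind_isInd f' j) with h1 | h1
    · exact h1
    · by_cases hbig : sz (ind f i) < 2 * sz (fun v => ind f i v * ind f' j v)
      · have h2 := hm j hbig
        have hcomm : (fun v => ind f' j v * ind f i v) = fun v => ind f i v * ind f' j v := by
          ext v; ring
        rcases c.F1 f' hf' j (ind f i) (ind_isInd f i) with h3 | h3
        · rw [hcomm] at h3; exact h3
        · exfalso
          have h4 := bdr_diff Γ (ind_isInd f' j) (ind_isInd f i)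
          have h5 := sz_split (ind f' j) (ind f i)
          rw [hcomm] at h5
          have h7 := (hf' j).1
          have h8 := (hf' j).2
          nlinarith
      · exfalso
        have h4 := bdr_diff_half (Γ := Γ) (ind_isInd f i) f' j
        have h5 := sz_split (ind f i) (ind f' j)
        nlinarith [hA.1, hA.2]
  have h1 := Finset.sum_le_sum fun j (_ : j ∈ Finset.univ) => key j
  rw [← Finset.mul_sum, sum_sz_mul] at h1
  have h2 := sum_bdr_mul (Γ := Γ) (ind_isInd f i) f'
  nlinarith [hA.1, hA.2]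

section action

variable {G : Type} [Group G] [Fintype G] [MulAction G V]

theorem adj_smul (hΓ : ∀ (g : G) (v w : V), Γ.Adj (g • v) (g • w) ↔ Γ.Adj v w) (g : G) (v w : V) :
    adj Γ (g • v) (g • w) = adj Γ v w := by
  unfold adj
  by_cases h : Γ.Adj v w
  · rw [if_pos h, if_pos ((hΓ g v w).2 h)]
  · rw [if_neg h, if_neg fun h' => h ((hΓ g v w).1 h')]

theorem sum_smul (g : G) (φ : V → ℝ) : ∑ v, φ (g • v) = ∑ v, φ v :=
  Equiv.sum_comp (MulAction.toPerm g) φ

theorem E_smul (hΓ : ∀ (g : G) (v w : V), Γ.Adj (g • v) (g • w) ↔ Γ.Adj v w) (g : G)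
    (φ : V → V → ℝ) : E Γ (fun v w => φ (g • v) (g • w)) = E Γ φ := by
  unfold E
  rw [← sum_smul g fun v => ∑ w, adj Γ v w * φ v w]
  refine Finset.sum_congr rfl fun v _ => ?_
  rw [← sum_smul g fun w => adj Γ (g • v) w * φ (g • v) w]
  refine Finset.sum_congr rfl fun w _ => ?_
  rw [adj_smul hΓ]

theorem good_tr (hΓ : ∀ (g : G) (v w : V), Γ.Adj (g • v) (g • w) ↔ Γ.Adj v w) {n : ℕ} {h : ℝ}
    {f : V → Fin n} (hf : Good Γ h f) (g : G) : Good Γ h (fun v => f (g⁻¹ • v)) := by
  intro i
  have h1 : sz (ind (fun v => f (g⁻¹ • v)) i) = sz (ind f i) := sum_smul g⁻¹ (ind f i)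
  have h2 : bdr Γ (ind (fun v => f (g⁻¹ • v)) i) = bdr Γ (ind f i) :=
    E_smul hΓ g⁻¹ (fun v w => ind f i v * (1 - ind f i w))
  rw [h1, h2]
  exact hf i

/-- Averaging over a transitive group. -/
theorem avg (ht : ∀ v w : V, ∃ g : G, g • v = w) (φ : V → ℝ) (v : V) :
    (Fintype.card V : ℝ) * ∑ g : G, φ (g⁻¹ • v) = Fintype.card G * ∑ u, φ u := by
  have h1 : ∀ w, ∑ g : G, φ (g⁻¹ • w) = ∑ g : G, φ (g⁻¹ • v) := by
    intro w
    obtain ⟨k, rfl⟩ := ht v w
    rw [← Equiv.sum_comp (Equiv.mulLeft k) fun g : G => φ (g⁻¹ • (k • v))]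
    refine Finset.sum_congr rfl fun g _ => ?_
    simp only [Equiv.coe_mulLeft, mul_inv_rev, smul_smul, inv_mul_cancel_right]
  have h2 : ∑ w : V, ∑ g : G, φ (g⁻¹ • w) = Fintype.card V * ∑ g : G, φ (g⁻¹ • v) := by
    rw [Finset.sum_congr rfl fun w _ => h1 w, Finset.sum_const, nsmul_eq_mul, Finset.card_univ]
  rw [← h2, Finset.sum_comm, Finset.sum_congr rfl fun g _ => sum_smul (g⁻¹ : G) φ,
    Finset.sum_const, nsmul_eq_mul, Finset.card_univ]

theorem good_total {n : ℕ} {h : ℝ} {f : V → Fin n} (hf : Good Γ h f) :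
    E Γ (fun v w => if f v = f w then 0 else 1) ≤ h * Fintype.card V := by
  rw [← sum_bdr, ← sum_ind f, Finset.mul_sum]
  exact Finset.sum_le_sum fun i _ => (hf i).2

theorem card_pos {n : ℕ} {h : ℝ} {f : V → Fin n} (hf : Good Γ h f) (i : Fin n) :
    (0 : ℝ) < Fintype.card V := by
  rw [← sum_ind f]
  exact (hf i).1.trans_le (Finset.single_le_sum (f := fun i => sz (ind f i))
    (fun j _ => (hf j).1.le) (Finset.mem_univ i))

/-- The class `i` of `f` is matched with the class `j` of `f'`. -/
def IsM {n : ℕ} (f f' : V → Fin n) (i j : Fin n) : Prop :=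
  sz (ind f i) < 2 * sz (fun v => ind f i v * ind f' j v) ∧
    sz (ind f' j) < 2 * sz (fun v => ind f i v * ind f' j v)

theorem IsM.symm {n : ℕ} {f f' : V → Fin n} {i j : Fin n} (h : IsM f f' i j) : IsM f' f j i := by
  have hcomm : (fun v => ind f' j v * ind f i v) = fun v => ind f i v * ind f' j v := by
    ext v; ring
  unfold IsM
  rw [hcomm]
  exact ⟨h.2, h.1⟩

theorem IsM.refl {n : ℕ} {h : ℝ} {f : V → Fin n} (hf : Good Γ h f) (i : Fin n) : IsM f f i i := by
  have h1 : (fun v => ind f i v * ind f i v) = ind f i := by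
    ext v
    rcases ind_isInd f i v with h | h <;> rw [h] <;> norm_num
  unfold IsM
  rw [h1]
  have := (hf i).1
  constructor <;> linarith

theorem IsM.ratio {n : ℕ} {h H : ℝ} (c : Ctx Γ n h H) {f f' : V → Fin n} (hf : Good Γ h f)
    (hf' : Good Γ h f') {i j : Fin n} (hm : IsM f f' i j) :
    (H - h) * sz (ind f' j) ≤ (H + h) * sz (ind f i) := by
  have h5 := (matched_ineq c hf' hf hm.symm.1 hm.symm.2).2
  have h8 := sz_split (ind f' j) (ind f i)
  have h9 := sz_split (ind f i) (ind f' j)
  have hcomm : (fun v => ind f' j v * ind f i v) = fun v => ind f i v * ind f' j v := by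
    ext v; ring
  rw [hcomm] at h8
  have h11 : 0 ≤ sz fun v => ind f i v * (1 - ind f' j v) :=
    sz_nonneg fun v => mul_nonneg (isInd_nonneg (ind_isInd f i) v) (by
      rcases ind_isInd f' j v with h | h <;> rw [h] <;> norm_num)
  have := c.Hpos
  nlinarith

theorem IsM.trans {n : ℕ} {h H : ℝ} (c : Ctx Γ n h H) {f f' f'' : V → Fin n} (hf : Good Γ h f)
    (hf' : Good Γ h f') (hf'' : Good Γ h f'') {i j k : Fin n} (hm : IsM f f' i j)
    (hm' : IsM f' f'' j k) : IsM f f'' i k := by
  -- one half
  have key : ∀ (f f' f'' : V → Fin n), Good Γ h f → Good Γ h f' → Good Γ h f'' → ∀ i j k,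
      IsM f f' i j → IsM f' f'' j k → sz (ind f i) < 2 * sz (fun v => ind f i v * ind f'' k v) := by
    intro f f' f'' hf hf' hf'' i j k hm hm'
    have h1 := (matched_ineq c hf hf' hm.1 hm.2).2
    have h2 := (matched_ineq c hf' hf'' hm'.1 hm'.2).2
    have h3 := hm.ratio c hf hf'
    have h4 := hm'.ratio c hf' hf''
    have h5 := sz_split (ind f i) (ind f'' k)
    have h6 : sz (fun v => ind f i v * (1 - ind f'' k v))
        ≤ sz (fun v => ind f i v * (1 - ind f' j v)) + sz (fun v => ind f' j v * (1 - ind f'' k v)) := by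
      unfold sz
      rw [← Finset.sum_add_distrib]
      refine Finset.sum_le_sum fun v _ => ?_
      rcases ind_isInd f i v with h1 | h1 <;> rcases ind_isInd f' j v with h2 | h2 <;>
        rcases ind_isInd f'' k v with h3 | h3 <;> rw [h1, h2, h3] <;> norm_num
    have hA := (hf i).1
    have hA' := (hf' j).1
    have hA'' := (hf'' k).1
    have h0 := c.h0
    have hH := c.hH
    have hHp := c.Hpos
    set a := sz (ind f i)
    set a' := sz (ind f' j)
    set a'' := sz (ind f'' k)
    have h7 : a' ≤ 6 / 5 * a := by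
      have : (H - h) * a' ≤ (H - h) * (6 / 5 * a) := h3.trans (by nlinarith)
      exact le_of_mul_le_mul_left this (by linarith)
    have h8 : a'' ≤ 6 / 5 * a' := by
      have : (H - h) * a'' ≤ (H - h) * (6 / 5 * a') := h4.trans (by nlinarith)
      exact le_of_mul_le_mul_left this (by linarith)
    have h9 : h * (a + a') + h * (a' + a'') ≤ h * (5 * a) := by
      rw [← mul_add]
      exact mul_le_mul_of_nonneg_left (by linarith) h0
    have h10 : H * sz (fun v => ind f i v * (1 - ind f'' k v)) ≤ h * (5 * a) := by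
      have := mul_le_mul_of_nonneg_left h6 hHp.le
      linarith
    have h11 : H * (2 * sz (fun v => ind f i v * (1 - ind f'' k v))) < H * a := by nlinarith
    have h12 := lt_of_mul_lt_mul_left h11 hHp.le
    linarith
  refine ⟨key f f' f'' hf hf' hf'' i j k hm hm', ?_⟩
  have h1 := key f'' f' f hf'' hf' hf k j i hm'.symm hm.symm
  have hcomm : (fun v => ind f'' k v * ind f i v) = fun v => ind f i v * ind f'' k v := by
    ext v; ring
  rw [hcomm] at h1
  exact h1

/-- the translate of the partition `f` by `g` -/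
def tr {n : ℕ} (f : V → Fin n) (g : G) : V → Fin n := fun v => f (g⁻¹ • v)

/-- matched translates of classes -/
def M {n : ℕ} (f : V → Fin n) (p q : G × Fin n) : Prop := IsM (tr f p.1) (tr f q.1) p.2 q.2

theorem M_smul {n : ℕ} {f : V → Fin n} (k : G) (p q : G × Fin n) :
    M f (k * p.1, p.2) (k * q.1, q.2) ↔ M f p q := by
  have h1 : ∀ (g : G) i v, ind (tr f (k * g)) i v = ind (tr f g) i (k⁻¹ • v) := by
    intro g i v
    simp only [ind, tr, mul_inv_rev, smul_smul]
  have h2 : ∀ (g : G) i, sz (ind (tr f (k * g)) i) = sz (ind (tr f g) i) := by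
    intro g i
    rw [show ind (tr f (k * g)) i = fun v => ind (tr f g) i (k⁻¹ • v) from funext (h1 g i)]
    exact sum_smul k⁻¹ (ind (tr f g) i)
  have h3 : ∀ (g g' : G) i j, sz (fun v => ind (tr f (k * g)) i v * ind (tr f (k * g')) j v)
      = sz (fun v => ind (tr f g) i v * ind (tr f g') j v) := by
    intro g g' i j
    simp only [h1]
    exact sum_smul k⁻¹ (fun v => ind (tr f g) i v * ind (tr f g') j v)
  unfold M IsM
  rw [h2, h2, h3]

theorem M_trans {n : ℕ} {h H : ℝ} (c : Ctx Γ n h H)
    (hΓ : ∀ (g : G) (v w : V), Γ.Adj (g • v) (g • w) ↔ Γ.Adj v w) {f : V → Fin n}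
    (hf : Good Γ h f) {p q q' : G × Fin n} (h1 : M f p q) (h2 : M f q q') : M f p q' :=
  IsM.trans c (good_tr hΓ hf _) (good_tr hΓ hf _) (good_tr hΓ hf _) h1 h2

theorem M_symm {n : ℕ} {f : V → Fin n} {p q : G × Fin n} (h1 : M f p q) : M f q p := IsM.symm h1

open Classical in
/-- the number of translated partitions in which the class of `v` is matched with `q` -/
noncomputable def cnt {n : ℕ} (f : V → Fin n) (v : V) (q : G × Fin n) : ℝ :=
  ∑ g : G, if M f (g, f (g⁻¹ • v)) q then 1 else 0

/-- `q` wins the vote of `v` -/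
def P {n : ℕ} (f : V → Fin n) (v : V) (q : G × Fin n) : Prop :=
  3 / 4 * (Fintype.card G : ℝ) ≤ cnt f v q

theorem cnt_smul {n : ℕ} {f : V → Fin n} (k : G) (v : V) (q : G × Fin n) :
    cnt f (k • v) (k * q.1, q.2) = cnt f v q := by
  classical
  unfold cnt
  rw [← Equiv.sum_comp (Equiv.mulLeft k)]
  refine Finset.sum_congr rfl fun g _ => ?_
  have h1 : M f (k * g, f ((k * g)⁻¹ • (k • v))) (k * q.1, q.2) ↔ M f (g, f (g⁻¹ • v)) q := by
    rw [mul_inv_rev, smul_smul, inv_mul_cancel_right]
    exact M_smul k (g, f (g⁻¹ • v)) q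
  simp only [Equiv.coe_mulLeft, h1]

theorem P_M {n : ℕ} {h H : ℝ} (c : Ctx Γ n h H)
    (hΓ : ∀ (g : G) (v w : V), Γ.Adj (g • v) (g • w) ↔ Γ.Adj v w) {f : V → Fin n}
    (hf : Good Γ h f) {v : V} {q q' : G × Fin n} (hP : P f v q) (hq : M f q q') : P f v q' := by
  classical
  refine le_trans hP (Finset.sum_le_sum fun g _ => ?_)
  by_cases h1 : M f (g, f (g⁻¹ • v)) q
  · rw [if_pos h1, if_pos (M_trans c hΓ hf h1 hq)]
  · rw [if_neg h1]; split_ifs <;> norm_num

theorem P_uniq {n : ℕ} {h H : ℝ} (c : Ctx Γ n h H)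
    (hΓ : ∀ (g : G) (v w : V), Γ.Adj (g • v) (g • w) ↔ Γ.Adj v w) {f : V → Fin n}
    (hf : Good Γ h f) {v : V} {q q' : G × Fin n} (hP : P f v q) (hP' : P f v q') : M f q q' := by
  classical
  by_contra hcon
  have h1 : cnt f v q + cnt f v q' ≤ Fintype.card G := by
    unfold cnt
    rw [← Finset.sum_add_distrib]
    calc _ ≤ ∑ g : G, (1 : ℝ) := Finset.sum_le_sum fun g _ => by
          by_cases h1 : M f (g, f (g⁻¹ • v)) q
          · have h2 : ¬ M f (g, f (g⁻¹ • v)) q' := fun h2 =>
              hcon (M_trans c hΓ hf (M_symm h1) h2)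
            rw [if_pos h1, if_neg h2]; norm_num
          · rw [if_neg h1]; split_ifs <;> norm_num
      _ = _ := by simp
  have h2 : (0 : ℝ) < Fintype.card G := by exact_mod_cast Fintype.card_pos
  unfold P at hP hP'
  linarith

theorem cnt_le {n : ℕ} {f : V → Fin n} (v : V) (q : G × Fin n) : cnt f v q ≤ Fintype.card G := by
  classical
  unfold cnt
  calc _ ≤ ∑ g : G, (1 : ℝ) := Finset.sum_le_sum fun g _ => by split_ifs <;> norm_num
    _ = _ := by simp

/-- losers of the vote have at most a quarter of the votes -/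
theorem cnt_lose {n : ℕ} {h H : ℝ} (c : Ctx Γ n h H)
    (hΓ : ∀ (g : G) (v w : V), Γ.Adj (g • v) (g • w) ↔ Γ.Adj v w) {f : V → Fin n}
    (hf : Good Γ h f) {v : V} {q q' : G × Fin n} (hP : P f v q) (hq : ¬ P f v q') :
    cnt f v q' ≤ 1 / 4 * Fintype.card G := by
  classical
  have hcon : ¬ M f q q' := fun h1 => hq (P_M c hΓ hf hP h1)
  have h1 : cnt f v q + cnt f v q' ≤ Fintype.card G := by
    unfold cnt
    rw [← Finset.sum_add_distrib]
    calc _ ≤ ∑ g : G, (1 : ℝ) := Finset.sum_le_sum fun g _ => by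
          by_cases h1 : M f (g, f (g⁻¹ • v)) q
          · have h2 : ¬ M f (g, f (g⁻¹ • v)) q' := fun h2 =>
              hcon (M_trans c hΓ hf (M_symm h1) h2)
            rw [if_pos h1, if_neg h2]; norm_num
          · rw [if_neg h1]; split_ifs <;> norm_num
      _ = _ := by simp
  unfold P at hP
  linarith

theorem tr_one {n : ℕ} (f : V → Fin n) : tr f (1 : G) = f := by
  ext v; simp [tr]

/-- The key estimate: a class of `f` wins most of the votes of its members. -/
theorem votes {n : ℕ} {h H : ℝ} (c : Ctx Γ n h H)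
    (hΓ : ∀ (g : G) (v w : V), Γ.Adj (g • v) (g • w) ↔ Γ.Adj v w)
    (ht : ∀ v w : V, ∃ g : G, g • v = w) {f : V → Fin n} (hf : Good Γ h f) (i : Fin n) :
    13 / 16 * (Fintype.card G * sz (ind f i))
      ≤ ∑ v, ind f i v * cnt f v ((1 : G), i) := by
  classical
  have h0 := c.h0
  have hH := c.hH
  have hHp := c.Hpos
  have hN := card_pos hf i
  set N : ℝ := (Fintype.card V : ℝ) with hNdef
  set M' : ℝ := (Fintype.card G : ℝ) with hMdef
  have hM : 0 < M' := by
    rw [hMdef]; exact_mod_cast Fintype.card_pos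
  set A : ℝ := sz (ind f i) with hAdef
  have hA : 0 < A := (hf i).1
  let o : G → ℝ := fun g => ∑ v, ind f i v * if M f (g, f (g⁻¹ • v)) ((1 : G), i) then 1 else 0
  let d : G → ℝ := fun g => E Γ fun v w => ind f i v * if f (g⁻¹ • v) = f (g⁻¹ • w) then 0 else 1
  have ho0 : ∀ g, 0 ≤ o g := fun g => Finset.sum_nonneg fun v _ =>
    mul_nonneg (isInd_nonneg (ind_isInd f i) v) (by split_ifs <;> norm_num)
  have hd0 : ∀ g, 0 ≤ d g := fun g => E_nonneg Γ fun v w =>
    mul_nonneg (isInd_nonneg (ind_isInd f i) v) (by split_ifs <;> norm_num)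
  have hkey : ∀ g, (H - 3 * h) * ((H - 2 * h) * A - d g) ≤ (H - h) * (H - 2 * h) * o g := by
    intro g
    rcases matched_or c hf (good_tr hΓ hf g) i with ⟨j, h1, h2⟩ | h3
    · have hm : IsM f (fun v => f (g⁻¹ • v)) i j := ⟨h1, h2⟩
      have h4 := (matched_ineq c hf (good_tr hΓ hf g) h1 h2).2
      have h12 := hm.ratio c hf (good_tr hΓ hf g)
      have h7 := sz_split (ind f i) (ind (fun v => f (g⁻¹ • v)) j)
      have h13 : (H - 3 * h) * A ≤ (H - h) * sz (fun v => ind f i v * ind (fun v => f (g⁻¹ • v)) j v) := by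
        set x := sz fun v => ind f i v * (1 - ind (fun v => f (g⁻¹ • v)) j v)
        have h14 : H * ((H - h) * x) ≤ H * (2 * h * A) := by
          have h15 : h * ((H - h) * (sz (ind f i) + sz (ind (fun v => f (g⁻¹ • v)) j)))
              ≤ h * (2 * H * A) := mul_le_mul_of_nonneg_left (by rw [mul_add]; linarith) h0
          have h16 : (H - h) * (H * x)
              ≤ (H - h) * (h * (sz (ind f i) + sz (ind (fun v => f (g⁻¹ • v)) j))) :=
            mul_le_mul_of_nonneg_left h4 (by linarith)
          linarith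
        have h15 := le_of_mul_le_mul_left h14 hHp
        have h16 : (H - h) * sz (ind f i) = (H - h) * (sz (fun v => ind f i v * ind (fun v => f (g⁻¹ • v)) j v)) + (H - h) * x := by
          rw [h7]; ring
        rw [← hAdef] at h16
        linarith
      have h16 : sz (fun v => ind f i v * ind (fun v => f (g⁻¹ • v)) j v) ≤ o g := by
        refine Finset.sum_le_sum fun v _ => mul_le_mul_of_nonneg_left ?_
          (isInd_nonneg (ind_isInd f i) v)
        by_cases h17 : f (g⁻¹ • v) = j
        · have h18 : M f (g, f (g⁻¹ • v)) ((1 : G), i) := by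
            unfold M
            rw [h17]
            simp only [tr_one]
            exact hm.symm
          rw [if_pos h18]
          rcases ind_isInd (fun v => f (g⁻¹ • v)) j v with h | h <;> rw [h]; norm_num
        · unfold ind
          rw [if_neg h17]
          split_ifs <;> norm_num
      have h17 : 0 < H - 2 * h := by linarith
      have h18 : 0 < H - h := by linarith
      have h19 : 0 < H - 3 * h := by linarith
      have h20 := hd0 g
      calc (H - 3 * h) * ((H - 2 * h) * A - d g) ≤ (H - 3 * h) * ((H - 2 * h) * A) := by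
            have := mul_nonneg h19.le h20
            linarith
        _ = (H - 2 * h) * ((H - 3 * h) * A) := by ring
        _ ≤ (H - 2 * h) * ((H - h) * sz (fun v => ind f i v * ind (fun v => f (g⁻¹ • v)) j v)) :=
            mul_le_mul_of_nonneg_left h13 h17.le
        _ = (H - h) * (H - 2 * h) * sz (fun v => ind f i v * ind (fun v => f (g⁻¹ • v)) j v) := by
            ring
        _ ≤ _ := mul_le_mul_of_nonneg_left h16 (mul_pos h18 h17).le
    · have h4 : (H - 2 * h) * A - d g ≤ 0 := by
        have : (H - 2 * h) * A ≤ d g := h3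
        linarith
      have h5 : (H - 3 * h) * ((H - 2 * h) * A - d g) ≤ 0 :=
        mul_nonpos_of_nonneg_of_nonpos (by linarith) h4
      exact h5.trans (mul_nonneg (mul_nonneg (by linarith) (by linarith)) (ho0 g))
  have hdavg : N * ∑ g : G, d g = M' * (A * E Γ (fun v w => if f v = f w then 0 else 1)) := by
    let e : V → ℝ := fun u => ∑ w, adj Γ u w * if f u = f w then 0 else 1
    have h1 : ∀ g : G, d g = ∑ v, ind f i v * e (g⁻¹ • v) := by
      intro g
      simp only [d, E]
      refine Finset.sum_congr rfl fun v _ => ?_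
      simp only [e]
      rw [← sum_smul g⁻¹ fun w => adj Γ (g⁻¹ • v) w * if f (g⁻¹ • v) = f w then 0 else 1,
        Finset.mul_sum]
      refine Finset.sum_congr rfl fun w _ => ?_
      rw [adj_smul hΓ]; ring
    have h3 : ∑ g : G, d g = ∑ v, ind f i v * ∑ g : G, e (g⁻¹ • v) := by
      rw [Finset.sum_congr rfl fun g _ => h1 g, Finset.sum_comm]
      exact Finset.sum_congr rfl fun v _ => (Finset.mul_sum _ _ _).symm
    rw [h3, Finset.mul_sum]
    have h2 : ∀ v, N * (ind f i v * ∑ g : G, e (g⁻¹ • v)) = ind f i v * (M' * ∑ u, e u) := by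
      intro v
      have := avg ht e v
      rw [← hNdef, ← hMdef] at this
      rw [← this]; ring
    rw [Finset.sum_congr rfl fun v _ => h2 v, ← Finset.sum_mul]
    change A * (M' * E Γ (fun v w => if f v = f w then 0 else 1)) = _
    ring
  have hdle : ∑ g : G, d g ≤ M' * A * h := by
    have h1 := good_total hf
    have h2 : N * ∑ g : G, d g ≤ N * (M' * A * h) := by
      rw [hdavg]
      have := mul_le_mul_of_nonneg_left h1 (mul_pos hM hA).le
      rw [← hNdef] at this
      linarith
    exact le_of_mul_le_mul_left h2 hN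
  have hsum : (H - 3 * h) * ((H - 2 * h) * A * M' - ∑ g : G, d g)
      ≤ (H - h) * (H - 2 * h) * ∑ g : G, o g := by
    have h1 := Finset.sum_le_sum fun g (_ : g ∈ (Finset.univ : Finset G)) => hkey g
    rw [← Finset.mul_sum, ← Finset.mul_sum, Finset.sum_sub_distrib, Finset.sum_const, nsmul_eq_mul,
      Finset.card_univ, ← hMdef] at h1
    linarith
  have hsum2 : (H - 3 * h) ^ 2 * (M' * A) ≤ (H - h) * (H - 2 * h) * ∑ g : G, o g := by
    refine le_trans ?_ hsum
    have h1 := mul_le_mul_of_nonneg_left hdle (show 0 ≤ H - 3 * h by linarith)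
    nlinarith
  have hquad : 13 / 16 * ((H - h) * (H - 2 * h)) ≤ (H - 3 * h) ^ 2 := by
    nlinarith [mul_nonneg h0 (show 0 ≤ H - 20 * h by linarith), sq_nonneg (H - 20 * h)]
  have hfin : ∑ v, ind f i v * cnt f v ((1 : G), i) = ∑ g : G, o g := by
    simp only [cnt, o, Finset.mul_sum]
    exact Finset.sum_comm
  rw [hfin]
  have hpos : 0 < (H - h) * (H - 2 * h) := mul_pos (by linarith) (by linarith)
  have h1 : (H - h) * (H - 2 * h) * (13 / 16 * (M' * A))
      ≤ (H - h) * (H - 2 * h) * ∑ g : G, o g := by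
    refine le_trans ?_ hsum2
    have := mul_le_mul_of_nonneg_right hquad (mul_pos hM hA).le
    linarith
  exact le_of_mul_le_mul_left h1 hpos

/-- every class of `f` wins the vote of one of its members -/
theorem exists_winner {n : ℕ} {h H : ℝ} (c : Ctx Γ n h H)
    (hΓ : ∀ (g : G) (v w : V), Γ.Adj (g • v) (g • w) ↔ Γ.Adj v w)
    (ht : ∀ v w : V, ∃ g : G, g • v = w) {f : V → Fin n} (hf : Good Γ h f) (i : Fin n) :
    ∃ v, f v = i ∧ P f v ((1 : G), i) := by
  by_contra hcon
  push Not at hcon
  have h1 := votes c hΓ ht hf i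
  have h2 : ∑ v, ind f i v * cnt f v ((1 : G), i) ≤ 3 / 4 * (Fintype.card G * sz (ind f i)) := by
    unfold sz
    rw [Finset.mul_sum, Finset.mul_sum]
    refine Finset.sum_le_sum fun v _ => ?_
    by_cases h3 : f v = i
    · have h4 := hcon v h3
      unfold P at h4
      push Not at h4
      rw [show ind f i v = 1 from if_pos h3]
      linarith
    · rw [show ind f i v = 0 from if_neg h3]
      simp
  have h3 : 0 < Fintype.card G * sz (ind f i) :=
    mul_pos (by exact_mod_cast Fintype.card_pos) (hf i).1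
  linarith

theorem core {n : ℕ} {h H : ℝ} (c : Ctx Γ n h H)
    (hΓ : ∀ (g : G) (v w : V), Γ.Adj (g • v) (g • w) ↔ Γ.Adj v w)
    (ht : ∀ v w : V, ∃ g : G, g • v = w) {f : V → Fin n} (hf : Good Γ h f) (i0 : Fin n) :
    ∃ F : V → Fin n, Function.Surjective F ∧
      ∀ g : G, ∃ τ : Equiv.Perm (Fin n), ∀ v, F (g • v) = τ (F v) := by
  classical
  have h0 := c.h0
  have hH := c.hH
  have hHp := c.Hpos
  have hN := card_pos hf i0
  have hG : (0 : ℝ) < Fintype.card G := by exact_mod_cast Fintype.card_pos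
  -- everybody has a winner
  have hex : ∀ v, ∃ q : G × Fin n, P f v q := by
    obtain ⟨v0, -, hv0⟩ := exists_winner c hΓ ht hf i0
    intro v
    obtain ⟨k, rfl⟩ := ht v0 v
    refine ⟨(k * 1, i0), ?_⟩
    unfold P
    rw [cnt_smul k v0 ((1 : G), i0)]
    exact hv0
  have hPk : ∀ (k : G) v q, P f v q → P f (k • v) (k * q.1, q.2) := by
    intro k v q hq
    unfold P
    rw [cnt_smul k v q]
    exact hq
  -- the blocks
  let S : Setoid V :=
    { r := fun x y => ∃ q : G × Fin n, P f x q ∧ P f y q
      iseqv :=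
        { refl := fun x => by obtain ⟨q, hq⟩ := hex x; exact ⟨q, hq, hq⟩
          symm := fun ⟨q, h1, h2⟩ => ⟨q, h2, h1⟩
          trans := fun ⟨q, h1, h2⟩ ⟨q', h3, h4⟩ =>
            ⟨q', P_M c hΓ hf h1 (P_uniq c hΓ hf h2 h3), h4⟩ } }
  have hSk : ∀ (k : G) x y, S.r x y → S.r (k • x) (k • y) := by
    rintro k x y ⟨q, h1, h2⟩
    exact ⟨_, hPk k x q h1, hPk k y q h2⟩
  have hSk' : ∀ (k : G) x y, S.r (k • x) (k • y) ↔ S.r x y := by
    intro k x y
    refine ⟨fun h1 => ?_, hSk k x y⟩
    have h2 := hSk k⁻¹ _ _ h1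
    rwa [inv_smul_smul, inv_smul_smul] at h2
  -- at least `n` blocks
  choose w hw1 hw2 using exists_winner c hΓ ht hf
  have hge : n ≤ Fintype.card (Quotient S) := by
    have hinj : Function.Injective fun i : Fin n => (Quotient.mk S (w i)) := by
      intro i j hij
      obtain ⟨q, h1, h2⟩ := Quotient.exact hij
      have h3 : M f ((1 : G), i) ((1 : G), j) :=
        M_trans c hΓ hf (P_uniq c hΓ hf (hw2 i) h1) (P_uniq c hΓ hf h2 (hw2 j))
      by_contra hne
      have h4 := h3.1
      simp only [tr_one] at h4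
      have h5 : sz (fun v => ind f i v * ind f j v) = 0 := Finset.sum_eq_zero fun v _ => by
        unfold ind
        by_cases h6 : f v = i
        · rw [if_neg (fun h7 => hne (h6.symm.trans h7)), mul_zero]
        · rw [if_neg h6, zero_mul]
      rw [h5] at h4
      have := (hf i).1
      linarith
    have := Fintype.card_le_of_injective _ hinj
    rwa [Fintype.card_fin] at this
  -- neighbors in other blocks
  let nb : V → V → ℝ := fun x y => if S.r x y then 0 else 1
  let out : V → ℝ := fun v => ∑ u, adj Γ v u * nb v u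
  obtain ⟨v0, -⟩ := exists_winner c hΓ ht hf i0
  have hout : ∀ v, out v = out v0 := by
    intro v
    obtain ⟨g, rfl⟩ := ht v0 v
    simp only [out]
    rw [← sum_smul g]
    refine Finset.sum_congr rfl fun u _ => ?_
    rw [adj_smul hΓ]
    simp only [nb, hSk']
  set b : ℝ := out v0 with hb
  have hnb0 : ∀ x y, 0 ≤ nb x y := fun x y => by simp only [nb]; split_ifs <;> norm_num
  have hb0 : 0 ≤ b := Finset.sum_nonneg fun u _ => mul_nonneg (adj_nonneg Γ _ _) (hnb0 _ _)
  have hweight : ∀ a : V → ℝ, E Γ (fun v u => a v * nb v u) = b * sz a := by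
    intro a
    unfold E sz
    rw [Finset.mul_sum]
    refine Finset.sum_congr rfl fun v _ => ?_
    rw [← hout v]
    simp only [out]
    rw [Finset.sum_mul]
    exact Finset.sum_congr rfl fun u _ => by ring
  -- vertices for which the own class does not win
  let dis : V → ℝ := fun v => if P f v ((1 : G), f v) then 0 else 1
  have hd01 : ∀ v, dis v = 0 ∨ dis v = 1 := fun v => by
    simp only [dis]; split_ifs
    · exact Or.inl rfl
    · exact Or.inr rfl
  set s : ℝ := ∑ v, dis v with hsdef
  set N : ℝ := (Fintype.card V : ℝ) with hNdef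
  set M' : ℝ := (Fintype.card G : ℝ) with hMdef
  have hs1 : s ≤ 1 / 4 * N := by
    have h1 : 13 / 16 * (M' * N) ≤ ∑ v, cnt f v ((1 : G), f v) := by
      have h2 := Finset.sum_le_sum fun i (_ : i ∈ Finset.univ) => votes c hΓ ht hf i
      rw [← Finset.mul_sum, ← Finset.mul_sum, sum_ind, Finset.sum_comm] at h2
      refine h2.trans (le_of_eq (Finset.sum_congr rfl fun v _ => ?_))
      unfold ind
      simp only [ite_mul, one_mul, zero_mul, Finset.sum_ite_eq, Finset.mem_univ, if_true]
    have h2 : ∑ v, cnt f v ((1 : G), f v) ≤ ∑ v, (M' - 3 / 4 * M' * dis v) := by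
      refine Finset.sum_le_sum fun v _ => ?_
      simp only [dis]
      by_cases h3 : P f v ((1 : G), f v)
      · rw [if_pos h3]
        have := cnt_le (G := G) (f := f) v ((1 : G), f v)
        linarith
      · rw [if_neg h3]
        obtain ⟨q, hq⟩ := hex v
        have := cnt_lose c hΓ hf hq h3
        linarith
    rw [Finset.sum_sub_distrib, Finset.sum_const, nsmul_eq_mul, Finset.card_univ, ← hNdef,
      ← Finset.mul_sum, ← hsdef] at h2
    have h3 : M' * s ≤ M' * (1 / 4 * N) := by nlinarith
    exact le_of_mul_le_mul_left h3 hG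
  have hb2 : b ≤ 2 * h := by
    have hwtot : E Γ nb = b * N := by
      have := hweight fun _ => 1
      simp only [one_mul] at this
      change E Γ nb = b * sz (fun _ => 1) at this
      rw [this]
      simp [sz, hNdef]
    have hw1' : E Γ (fun v u => dis v * nb v u) = b * s := hweight dis
    have hw2' : E Γ (fun v u => dis u * nb v u) = b * s := by
      rw [← E_symm Γ fun v u => dis u * nb v u]
      refine (E_congr Γ fun v u => ?_).trans hw1'
      have : nb u v = nb v u := by
        simp only [nb]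
        by_cases h1 : S.r v u
        · rw [if_pos h1, if_pos (S.iseqv.symm h1)]
        · rw [if_neg h1, if_neg fun h2 => h1 (S.iseqv.symm h2)]
      rw [this]
    have h1 := E_mono Γ (φ := fun v u => nb v u - dis v * nb v u - dis u * nb v u)
      (ψ := fun v u => if f v = f u then (0 : ℝ) else 1) (fun v u => by
        rcases hd01 v with h1 | h1 <;> rcases hd01 u with h2 | h2
        · rw [h1, h2]
          by_cases h3 : f v = f u
          · have h4 : P f v ((1 : G), f v) := by
              by_contra h4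
              simp only [dis, if_neg h4] at h1
              exact one_ne_zero h1
            have h5 : P f u ((1 : G), f u) := by
              by_contra h5
              simp only [dis, if_neg h5] at h2
              exact one_ne_zero h2
            have h6 : S.r v u := ⟨((1 : G), f v), h4, by rw [h3]; exact h5⟩
            rw [if_pos h3]
            simp only [nb, if_pos h6]
            norm_num
          · rw [if_neg h3]
            have : nb v u ≤ 1 := by simp only [nb]; split_ifs <;> norm_num
            linarith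
        · rw [h1, h2]
          have := hnb0 v u
          split_ifs <;> linarith
        · rw [h1, h2]
          have := hnb0 v u
          split_ifs <;> linarith
        · rw [h1, h2]
          have := hnb0 v u
          split_ifs <;> linarith)
    rw [E_sub, E_sub, hw1', hw2'] at h1
    change E Γ nb - b * s - b * s ≤ _ at h1
    rw [hwtot] at h1
    have h2 := h1.trans (good_total hf)
    have h3 : N * b ≤ N * (2 * h) := by
      have := mul_le_mul_of_nonneg_left hs1 hb0
      nlinarith
    exact le_of_mul_le_mul_left h3 hN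
  -- at most `n` blocks
  have hle : Fintype.card (Quotient S) ≤ n := by
    by_contra hcon
    push Not at hcon
    have h1 : Fintype.card (Fin (n + 1)) ≤ Fintype.card (Quotient S) := by
      rw [Fintype.card_fin]; omega
    obtain ⟨e⟩ := Function.Embedding.nonempty_of_card_le h1
    let F' : V → Fin (n + 1) := fun v => Function.invFun e (Quotient.mk S v)
    have hF' : Function.Surjective F' :=
      (Function.invFun_surjective e.injective).comp Quotient.mk_surjective
    obtain ⟨i, hi⟩ := c.F2 F' hF'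
    have h2 : bdr Γ (ind F' i) ≤ b * sz (ind F' i) := by
      rw [← hweight]
      refine E_mono Γ fun v u => ?_
      by_cases h3 : S.r v u
      · have h4 : F' u = F' v := by
          simp only [F']
          rw [Quotient.sound h3]
        have h5 : ind F' i u = ind F' i v := by unfold ind; rw [h4]
        rw [h5]
        simp only [nb, if_pos h3]
        rcases ind_isInd F' i v with h | h <;> rw [h] <;> norm_num
      · simp only [nb, if_neg h3]
        rcases ind_isInd F' i v with h | h <;> rcases ind_isInd F' i u with h' | h' <;>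
          rw [h, h'] <;> norm_num
    obtain ⟨v, hv⟩ := hF' i
    have h3 : 0 < sz (ind F' i) := by
      refine Finset.sum_pos' (fun v _ => isInd_nonneg (ind_isInd F' i) v) ⟨v, Finset.mem_univ v, ?_⟩
      unfold ind
      rw [if_pos hv]
      norm_num
    have h4 : H * sz (ind F' i) ≤ 2 * h * sz (ind F' i) :=
      hi.trans (h2.trans (mul_le_mul_of_nonneg_right hb2 h3.le))
    nlinarith
  have hcard : Fintype.card (Quotient S) = Fintype.card (Fin n) := by
    rw [Fintype.card_fin]; exact le_antisymm hle hge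
  let e : Quotient S ≃ Fin n := Fintype.equivOfCardEq hcard
  refine ⟨fun v => e (Quotient.mk S v), e.surjective.comp Quotient.mk_surjective, fun g => ?_⟩
  let φ : G → Quotient S → Quotient S := fun g => Quotient.map (g • ·) (fun x y h => hSk g x y h)
  have hφ : ∀ g v, φ g (Quotient.mk S v) = Quotient.mk S (g • v) := fun _ _ => rfl
  let τ' : Quotient S ≃ Quotient S :=
    { toFun := φ g
      invFun := φ g⁻¹
      left_inv := fun q => by
        obtain ⟨v, rfl⟩ := Quotient.exists_rep q
        rw [hφ, hφ, inv_smul_smul]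
      right_inv := fun q => by
        obtain ⟨v, rfl⟩ := Quotient.exists_rep q
        rw [hφ, hφ, smul_inv_smul] }
  refine ⟨(e.symm.trans τ').trans e, fun v => ?_⟩
  change e (Quotient.mk S (g • v)) = e (τ' (e.symm (e (Quotient.mk S v))))
  rw [e.symm_apply_apply]
  rfl

end action

end core

section transfer

variable {V : Type} [Fintype V] {Γ : SimpleGraph V}

open Classical in
theorem ncard_boundary (A : Set V) :
    ((boundary Γ A).ncard : ℝ) = bdr Γ (fun v => if v ∈ A then 1 else 0) := by
  have h1 : boundary Γ A = (fun p : V × V => s(p.1, p.2)) ''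
      (↑(Finset.univ.filter fun p : V × V => p.1 ∈ A ∧ p.2 ∉ A ∧ Γ.Adj p.1 p.2) : Set (V × V)) := by
    ext e
    simp only [boundary, Set.mem_ofPred_eq, Set.mem_image, Finset.coe_filter, Finset.mem_univ,
      true_and, Prod.exists]
    constructor
    · rintro ⟨he, v, hv, w, hw, rfl⟩
      exact ⟨v, w, ⟨hv, hw, he⟩, rfl⟩
    · rintro ⟨v, w, ⟨hv, hw, he⟩, rfl⟩
      exact ⟨he, v, hv, w, hw, rfl⟩
  rw [h1, Set.InjOn.ncard_image, Set.ncard_coe_finset, Finset.card_filter, Nat.cast_sum,
    Fintype.sum_prod_type]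
  · unfold bdr E adj
    refine Finset.sum_congr rfl fun v _ => Finset.sum_congr rfl fun w _ => ?_
    by_cases h2 : v ∈ A <;> by_cases h3 : w ∈ A <;> by_cases h4 : Γ.Adj v w <;>
      simp [h2, h3, h4]
  · rintro ⟨v, w⟩ hp ⟨v', w'⟩ hp' he
    simp only [Finset.coe_filter, Finset.mem_univ, true_and, Set.mem_ofPred_eq] at hp hp'
    rcases Sym2.eq_iff.1 he with ⟨h2, h3⟩ | ⟨h2, h3⟩
    · change v = v' at h2
      change w = w' at h3
      rw [h2, h3]
    · exfalso
      change v = w' at h2
      exact hp'.2.1 (h2 ▸ hp.1)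

open Classical in
theorem ncard_class (A : Set V) : (A.ncard : ℝ) = sz (fun v => if v ∈ A then 1 else 0) := by
  rw [Set.ncard_eq_toFinset_card', ← Set.filter_mem_univ_eq_toFinset, Finset.card_filter]
  simp [sz]

theorem ind_eq {n : ℕ} (f : V → Fin n) (i : Fin n) [DecidablePred (· ∈ f ⁻¹' {i})] :
    (fun v => if v ∈ f ⁻¹' {i} then (1 : ℝ) else 0) = ind f i := by
  ext v
  unfold ind
  simp only [Set.mem_preimage, Set.mem_singleton_iff]

theorem cost_eq {n : ℕ} (f : V → Fin n) :
    cost Γ f = ⨆ i, bdr Γ (ind f i) / sz (ind f i) := by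
  classical
  unfold cost
  congr 1
  ext i
  rw [ncard_boundary, ncard_class, ind_eq]

theorem sz_pos {n : ℕ} {f : V → Fin n} {i : Fin n} {v : V} (h : f v = i) : 0 < sz (ind f i) := by
  refine Finset.sum_pos' (fun v _ => isInd_nonneg (ind_isInd f i) v) ⟨v, Finset.mem_univ v, ?_⟩
  unfold ind
  rw [if_pos h]
  norm_num

theorem good_of_cost {n : ℕ} {f : V → Fin n} (hf : Function.Surjective f) :
    Good Γ (cost Γ f) f := by
  intro i
  obtain ⟨v, hv⟩ := hf i
  have h1 := sz_pos hv
  refine ⟨h1, ?_⟩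
  rw [← div_le_iff₀ h1, cost_eq]
  exact le_ciSup (f := fun i => bdr Γ (ind f i) / sz (ind f i)) (Set.finite_range _).bddAbove i

theorem isoper_le {n : ℕ} {f : V → Fin n} (hf : Function.Surjective f) :
    isoper Γ n ≤ cost Γ f :=
  ciInf_le (f := fun f : {f : V → Fin n // Function.Surjective f} => cost Γ f.1)
    (Set.finite_range _).bddBelow ⟨f, hf⟩

theorem cost_nonneg {n : ℕ} (f : V → Fin n) : 0 ≤ cost Γ f := by
  rw [cost_eq]
  exact Real.iSup_nonneg fun i => div_nonneg (bdr_nonneg Γ (ind_isInd f i))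
    (sz_nonneg (isInd_nonneg (ind_isInd f i)))

theorem ind_pos {n : ℕ} {f : V → Fin n} {i : Fin n} {v : V} (h : f v = i) : ind f i v = 1 :=
  if_pos h

theorem ind_neg {n : ℕ} {f : V → Fin n} {i : Fin n} {v : V} (h : f v ≠ i) : ind f i v = 0 :=
  if_neg h

theorem F1_of_isoper {n : ℕ} {h : ℝ} (hH : h < isoper Γ (n + 1)) (f : V → Fin n)
    (hf : Good Γ h f) (i : Fin n) (χ : V → ℝ) (hχ : IsInd χ) :
    isoper Γ (n + 1) * sz (fun v => ind f i v * χ v) ≤ bdr Γ (fun v => ind f i v * χ v) ∨
    isoper Γ (n + 1) * sz (fun v => ind f i v * (1 - χ v))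
      ≤ bdr Γ (fun v => ind f i v * (1 - χ v)) := by
  classical
  by_cases hT : ∃ v, f v = i ∧ χ v = 1
  · by_cases hR : ∃ v, f v = i ∧ χ v = 0
    · let f' : V → Fin (n + 1) := fun v => if f v = i ∧ χ v = 1 then Fin.last n else (f v).castSucc
      have hf1 : ∀ v, f v = i ∧ χ v = 1 → f' v = Fin.last n := fun v h => if_pos h
      have hf2 : ∀ v, ¬ (f v = i ∧ χ v = 1) → f' v = (f v).castSucc := fun v h => if_neg h
      have hlast : ind f' (Fin.last n) = fun v => ind f i v * χ v := by
        ext v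
        by_cases h1 : f v = i ∧ χ v = 1
        · rw [ind_pos (hf1 v h1), ind_pos h1.1, h1.2, mul_one]
        · rw [ind_neg (by rw [hf2 v h1]; exact (Fin.castSucc_lt_last _).ne)]
          by_cases h2 : f v = i
          · rcases hχ v with h3 | h3
            · rw [h3, mul_zero]
            · exact absurd ⟨h2, h3⟩ h1
          · rw [ind_neg h2, zero_mul]
      have hi : ind f' i.castSucc = fun v => ind f i v * (1 - χ v) := by
        ext v
        by_cases h1 : f v = i ∧ χ v = 1
        · rw [ind_neg (by rw [hf1 v h1]; exact (Fin.castSucc_lt_last _).ne'), h1.2]; ring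
        · by_cases h2 : f v = i
          · rcases hχ v with h3 | h3
            · rw [ind_pos (by rw [hf2 v h1, h2]), ind_pos h2, h3]; ring
            · exact absurd ⟨h2, h3⟩ h1
          · rw [ind_neg (by rw [hf2 v h1]; exact fun h => h2 (Fin.castSucc_injective _ h)),
              ind_neg h2, zero_mul]
      have hj : ∀ j, j ≠ i → ind f' j.castSucc = ind f j := by
        intro j hji
        ext v
        by_cases h1 : f v = i ∧ χ v = 1
        · rw [ind_neg (by rw [hf1 v h1]; exact (Fin.castSucc_lt_last _).ne'),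
            ind_neg fun h => hji (h.symm.trans h1.1)]
        · by_cases h2 : f v = j
          · rw [ind_pos (by rw [hf2 v h1, h2]), ind_pos h2]
          · rw [ind_neg (by rw [hf2 v h1]; exact fun h => h2 (Fin.castSucc_injective _ h)),
              ind_neg h2]
      have hsurj : Function.Surjective f' := by
        intro k
        rcases Fin.eq_castSucc_or_eq_last k with ⟨j, rfl⟩ | rfl
        · by_cases hji : j = i
          · subst hji
            obtain ⟨v, hv1, hv2⟩ := hR
            exact ⟨v, by rw [hf2 v (fun h => by rw [hv2] at h; exact zero_ne_one h.2), hv1]⟩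
          · obtain ⟨v, hv⟩ : ∃ v, f v = j := by
              by_contra hcon
              push Not at hcon
              have h1 := (hf j).1
              have h2 : sz (ind f j) = 0 := Finset.sum_eq_zero fun v _ => by
                unfold ind; rw [if_neg (hcon v)]
              linarith
            exact ⟨v, by rw [hf2 v (fun h => hji (hv.symm.trans h.1)), hv]⟩
        · obtain ⟨v, hv⟩ := hT
          exact ⟨v, hf1 v hv⟩
      have h1 := isoper_le (Γ := Γ) hsurj
      obtain ⟨k, hk⟩ := exists_eq_ciSup_of_finite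
        (f := fun k => bdr Γ (ind f' k) / sz (ind f' k))
      rw [cost_eq, ← hk] at h1
      obtain ⟨v, hv⟩ := hsurj k
      rw [le_div_iff₀ (sz_pos hv)] at h1
      rcases Fin.eq_castSucc_or_eq_last k with ⟨j, rfl⟩ | rfl
      · by_cases hji : j = i
        · subst hji
          rw [hi] at h1
          exact Or.inr h1
        · exfalso
          rw [hj j hji] at h1
          have h2 := (hf j).1
          have h3 := (hf j).2
          nlinarith
      · rw [hlast] at h1
        exact Or.inl h1
    · right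
      have h1 : (fun v => ind f i v * (1 - χ v)) = fun _ => 0 := by
        ext v
        unfold ind
        by_cases h1 : f v = i
        · rcases hχ v with h2 | h2
          · exact absurd ⟨v, h1, h2⟩ hR
          · rw [h2]; ring
        · rw [if_neg h1]; ring
      rw [h1]
      simp [sz, bdr, E]
  · left
    have h1 : (fun v => ind f i v * χ v) = fun _ => 0 := by
      ext v
      unfold ind
      by_cases h1 : f v = i
      · rcases hχ v with h2 | h2
        · rw [h2]; ring
        · exact absurd ⟨v, h1, h2⟩ hT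
      · rw [if_neg h1]; ring
    rw [h1]
    simp [sz, bdr, E]

theorem F2_of_isoper {n : ℕ} (F' : V → Fin (n + 1)) (hF' : Function.Surjective F') :
    ∃ i, isoper Γ (n + 1) * sz (ind F' i) ≤ bdr Γ (ind F' i) := by
  have h1 := isoper_le (Γ := Γ) hF'
  obtain ⟨k, hk⟩ := exists_eq_ciSup_of_finite
    (f := fun k => bdr Γ (ind F' k) / sz (ind F' k))
  rw [cost_eq, ← hk] at h1
  obtain ⟨v, hv⟩ := hF' k
  rw [le_div_iff₀ (sz_pos hv)] at h1
  exact ⟨k, h1⟩

end transfer

/-- **Main theorem.** If `Γ` is a finite vertex-transitive graph, `n ≥ 1`, `|V| ≥ n + 1` and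
`h_{n+1} > 20 h_n`, then the automorphism group has a system of imprimitivity of size `n`. -/
theorem main (n : ℕ) (hn : 1 ≤ n) (V : Type) [Finite V] (Γ : SimpleGraph V)
    (hV : n < Nat.card V) (ht : ∀ v w : V, ∃ g : Γ ≃g Γ, g v = w)
    (hH : 20 * isoper Γ n < isoper Γ (n + 1)) :
    ∃ F : V → Fin n, Function.Surjective F ∧
      ∀ (g : Γ ≃g Γ) (i : Fin n), ∃ j : Fin n, g '' (F ⁻¹' {i}) = F ⁻¹' {j} := by
  classical
  have := Fintype.ofFinite V
  have hfin : Finite (Γ ≃g Γ) := Finite.of_injective (fun g : Γ ≃g Γ => g.toEquiv)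
    RelIso.toEquiv_injective
  have := Fintype.ofFinite (Γ ≃g Γ)
  have : Nonempty {f : V → Fin n // Function.Surjective f} := by
    have h1 : Fintype.card (Fin n) ≤ Fintype.card V := by
      rw [Fintype.card_fin, ← Nat.card_eq_fintype_card]; omega
    obtain ⟨e⟩ := Function.Embedding.nonempty_of_card_le h1
    have : Nonempty (Fin n) := ⟨⟨0, by omega⟩⟩
    exact ⟨⟨Function.invFun e, Function.invFun_surjective e.injective⟩⟩
  obtain ⟨⟨f, hf⟩, hfh⟩ := exists_eq_ciInf_of_finite
    (f := fun f : {f : V → Fin n // Function.Surjective f} => cost Γ f.1)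
  change cost Γ f = isoper Γ n at hfh
  have hgood : Good Γ (isoper Γ n) f := by rw [← hfh]; exact good_of_cost hf
  have h0 : 0 ≤ isoper Γ n := by rw [← hfh]; exact cost_nonneg f
  have hlt : isoper Γ n < isoper Γ (n + 1) := by linarith
  have c : Ctx Γ n (isoper Γ n) (isoper Γ (n + 1)) :=
    ⟨h0, hH, fun f hf i χ hχ => F1_of_isoper hlt f hf i χ hχ, fun F' hF' => F2_of_isoper F' hF'⟩
  obtain ⟨F, hF1, hF3⟩ := core (G := Γ ≃g Γ) c (fun g v w => g.map_rel_iff) ht hgood ⟨0, by omega⟩
  refine ⟨F, hF1, fun g i => ?_⟩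
  obtain ⟨τ, hτ⟩ := hF3 g
  refine ⟨τ i, ?_⟩
  ext w
  simp only [Set.mem_image, Set.mem_preimage, Set.mem_singleton_iff]
  constructor
  · rintro ⟨v, hv, rfl⟩
    rw [← hv]
    exact hτ v
  · intro hw
    refine ⟨g.symm w, ?_, g.apply_symm_apply w⟩
    have h1 := hτ (g.symm w)
    change F (g (g.symm w)) = τ (F (g.symm w)) at h1
    rw [g.apply_symm_apply, hw] at h1
    exact τ.injective h1.symm

/-- **Result.** There is an absolute constant, for example `C = 20`, such that for every finite
vertex-transitive graph and every `2 ≤ n < |V|` for which the automorphism group has no system of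
imprimitivity of size `n`, the inequality `h_{n+1} ≤ C h_n` holds. -/
theorem result :
    (∀ (V : Type) [Finite V] (Γ : SimpleGraph V), (∀ v w : V, ∃ g : Γ ≃g Γ, g v = w) →
      ∀ n : ℕ, 2 ≤ n → n < Nat.card V →
        (¬ ∃ F : V → Fin n, Function.Surjective F ∧
          ∀ (g : Γ ≃g Γ) (i : Fin n), ∃ j : Fin n, g '' (F ⁻¹' {i}) = F ⁻¹' {j}) →
        isoper Γ (n + 1) ≤ 20 * isoper Γ n) ∧
    ∃ C : ℝ, 0 < C ∧ ∀ (V : Type) [Finite V] (Γ : SimpleGraph V),
      (∀ v w : V, ∃ g : Γ ≃g Γ, g v = w) → ∀ n : ℕ, 2 ≤ n → n < Nat.card V →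
        (¬ ∃ F : V → Fin n, Function.Surjective F ∧
          ∀ (g : Γ ≃g Γ) (i : Fin n), ∃ j : Fin n, g '' (F ⁻¹' {i}) = F ⁻¹' {j}) →
        isoper Γ (n + 1) ≤ C * isoper Γ n := by
  have h1 : ∀ (V : Type) [Finite V] (Γ : SimpleGraph V), (∀ v w : V, ∃ g : Γ ≃g Γ, g v = w) →
      ∀ n : ℕ, 2 ≤ n → n < Nat.card V →
        (¬ ∃ F : V → Fin n, Function.Surjective F ∧
          ∀ (g : Γ ≃g Γ) (i : Fin n), ∃ j : Fin n, g '' (F ⁻¹' {i}) = F ⁻¹' {j}) →
        isoper Γ (n + 1) ≤ 20 * isoper Γ n := by
    intro V _ Γ ht n hn hV hno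
    by_contra hcon
    push Not at hcon
    exact hno (main n (by omega) V Γ hV ht hcon)
  exact ⟨h1, 20, by norm_num, h1⟩

end Pool.Agent.Results.MP_f363fd_co.AbsoluteConstant
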